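import Mathlib
import Pool.Agent.H34.BPB.Sum
import Pool.Agent.H34.BPB.Two

/-! Which dimensions carry a universal BPBp-ASE domain that is not uniformly convex? -/

set_option autoImplicit false

open Filter Topology

namespace Pool.Agent.Results.MP_78fc4b_an.DimensionDichotomy

universe u v w

/-- `T ∈ ASE(X, Y)`: `T` is absolutely strongly exposing. -/
def IsASE {𝕜 : Type w} [RCLike 𝕜] {X : Type u} {Y : Type v} [NormedAddCommGroup X]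
    [NormedSpace 𝕜 X] [NormedAddCommGroup Y] [NormedSpace 𝕜 Y] (T : X →L[𝕜] Y) : Prop :=
  ∃ x₀ : X, ‖x₀‖ = 1 ∧ ∀ x : ℕ → X, (∀ n, ‖x n‖ ≤ 1) →
    Tendsto (fun n => ‖T (x n)‖) atTop (𝓝 ‖T‖) →
    ∃ (σ : ℕ → ℕ) (c : 𝕜), StrictMono σ ∧ ‖c‖ = 1 ∧
      Tendsto (fun n => x (σ n)) atTop (𝓝 (c • x₀))

/-- The pair `(X, Y)` has the BPBp-ASE. -/
def HasBPBpASE (𝕜 : Type w) [RCLike 𝕜] (X : Type u) (Y : Type v) [NormedAddCommGroup X]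
    [NormedSpace 𝕜 X] [NormedAddCommGroup Y] [NormedSpace 𝕜 Y] : Prop :=
  ∀ ε : ℝ, 0 < ε → ∃ η : ℝ, 0 < η ∧ η < ε ∧
    ∀ T : X →L[𝕜] Y, ‖T‖ = 1 → ∀ x : X, ‖x‖ = 1 → 1 - η < ‖T x‖ →
      ∃ (S : X →L[𝕜] Y) (x₀ : X), IsASE S ∧ ‖x₀‖ = 1 ∧ ‖S‖ = 1 ∧ ‖S x₀‖ = 1 ∧
        ‖S - T‖ < ε ∧ ‖x - x₀‖ < ε

/-- `X` is uniformly convex. -/
def IsUniformlyConvex (X : Type u) [NormedAddCommGroup X] : Prop :=
  ∀ ε : ℝ, 0 < ε → ∃ δ : ℝ, 0 < δ ∧ δ < 1 ∧ ∀ x₁ x₂ : X, ‖x₁‖ = 1 → ‖x₂‖ = 1 →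
    1 - δ < ‖x₁ + x₂‖ / 2 → ‖x₁ - x₂‖ < ε

open Pool.Agent.H34.BPB in
theorem examples (𝕜 : Type w) [RCLike 𝕜] (n : ℕ) (hn : 3 ≤ n) :
    ∃ (X : Type w) (_ : NormedAddCommGroup X) (_ : NormedSpace 𝕜 X),
      CompleteSpace X ∧ Module.finrank 𝕜 X = n ∧
      (∃ x₁ x₂ : X, ‖x₁‖ = 1 ∧ ‖x₂‖ = 1 ∧ ‖x₁ + x₂‖ = 2 ∧ x₁ ≠ x₂) ∧
      ¬ IsUniformlyConvex X ∧
      ∀ (Z : Type v) [NormedAddCommGroup Z] [NormedSpace 𝕜 Z], HasBPBpASE 𝕜 X Z := by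
  let H := EuclideanSpace 𝕜 (Fin (n - 3))
  have hnot : ∃ x₁ x₂ : WithLp 2 (XX 𝕜 × H), ‖x₁‖ = 1 ∧ ‖x₂‖ = 1 ∧ ‖x₁ + x₂‖ = 2 ∧ x₁ ≠ x₂ := by
    obtain ⟨x₁, x₂, h1, h2, h12, hne⟩ := not_uc (𝕜 := 𝕜)
    have hnorm : ∀ x : XX 𝕜, ‖(WithLp.toLp 2 (x, (0 : H)) : WithLp 2 (XX 𝕜 × H))‖ = ‖x‖ := by
      intro x
      have := norm_sq_sum (WithLp.toLp 2 (x, (0 : H)) : WithLp 2 (XX 𝕜 × H))
      have h3 : ‖(WithLp.toLp 2 (x, (0 : H)) : WithLp 2 (XX 𝕜 × H))‖ ^ 2 = ‖x‖ ^ 2 := by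
        rw [this]
        change ‖x‖ ^ 2 + ‖(0 : H)‖ ^ 2 = _
        rw [norm_zero]; ring
      exact (pow_left_inj₀ (norm_nonneg _) (norm_nonneg _) two_ne_zero).1 h3
    refine ⟨WithLp.toLp 2 (x₁, 0), WithLp.toLp 2 (x₂, 0), (hnorm _).trans h1, (hnorm _).trans h2,
      ?_, ?_⟩
    · rw [← WithLp.toLp_add, Prod.mk_add_mk, add_zero, hnorm, h12]
    · intro h
      exact hne (congrArg (fun z : WithLp 2 (XX 𝕜 × H) => z.fst) h)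
  refine ⟨WithLp 2 (XX 𝕜 × H), inferInstance, inferInstance, FiniteDimensional.complete 𝕜 _,
    ?_, hnot, ?_, ?_⟩
  · rw [(WithLp.linearEquiv 2 𝕜 (XX 𝕜 × H)).finrank_eq, Module.finrank_prod, finrank_XX,
      finrank_euclideanSpace, Fintype.card_fin]
    omega
  · intro h
    obtain ⟨x₁, x₂, h1, h2, h12, hne⟩ := hnot
    have hpos : 0 < ‖x₁ - x₂‖ := norm_pos_iff.2 (sub_ne_zero.2 hne)
    obtain ⟨δ, hδ, _, hd⟩ := h _ hpos
    exact lt_irrefl _ (hd x₁ x₂ h1 h2 (by rw [h12]; linarith))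
  · intro Z _ _
    exact bpbp_of_propQ (propQ_sum propQ_XX) Z

/-- **Theorem.** (1) Over `𝕜 = ℝ` and over `𝕜 = ℂ`, for every `n ≥ 3` there is an `n`-dimensional
Banach space which is not even strictly convex, in particular not uniformly convex, and which is a
universal BPBp-ASE domain.
(2) Conversely a real normed space of dimension `≤ 2` for which only the pair `(X, ℝ)` has the
BPBp-ASE is uniformly convex.
(3) Hence, for each `n`, the statement that every `n`-dimensional real universal BPBp-ASE domain is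
uniformly convex holds if and only if `n ≤ 2`. -/
theorem result :
    (∀ (𝕜 : Type w) [RCLike 𝕜] (n : ℕ), 3 ≤ n →
      ∃ (X : Type w) (_ : NormedAddCommGroup X) (_ : NormedSpace 𝕜 X),
        CompleteSpace X ∧ Module.finrank 𝕜 X = n ∧
        (∃ x₁ x₂ : X, ‖x₁‖ = 1 ∧ ‖x₂‖ = 1 ∧ ‖x₁ + x₂‖ = 2 ∧ x₁ ≠ x₂) ∧
        ¬ IsUniformlyConvex X ∧
        ∀ (Z : Type v) [NormedAddCommGroup Z] [NormedSpace 𝕜 Z], HasBPBpASE 𝕜 X Z) ∧
    (∀ (X : Type u) [NormedAddCommGroup X] [NormedSpace ℝ X] [FiniteDimensional ℝ X],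
      Module.finrank ℝ X ≤ 2 → HasBPBpASE ℝ X ℝ → IsUniformlyConvex X) ∧
    (∀ n : ℕ, (∀ (X : Type) [NormedAddCommGroup X] [NormedSpace ℝ X] [FiniteDimensional ℝ X],
      Module.finrank ℝ X = n →
      (∀ (Z : Type) [NormedAddCommGroup Z] [NormedSpace ℝ Z] [CompleteSpace Z],
        HasBPBpASE ℝ X Z) → IsUniformlyConvex X) ↔ n ≤ 2) := by
  refine ⟨fun 𝕜 _ n hn => examples 𝕜 n hn, ?_, ?_⟩
  · intro X _ _ _ hdim h
    exact Pool.Agent.H34.BPB.uc_of_strict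
      (fun x y => Pool.Agent.H34.BPB.strict_of_two hdim h x y)
  · intro n
    constructor
    · intro h
      by_contra hcon
      push Not at hcon
      obtain ⟨X, i1, i2, _, hfin, _, hnot, hall⟩ := examples.{0, 0} ℝ n (by omega)
      have : FiniteDimensional ℝ X := FiniteDimensional.of_finrank_pos (by rw [hfin]; omega)
      exact hnot (h X hfin fun Z _ _ _ => hall Z)
    · intro hn X _ _ _ hdim h
      exact Pool.Agent.H34.BPB.uc_of_strict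
        (fun x y => Pool.Agent.H34.BPB.strict_of_two (by omega) (h ℝ) x y)

end Pool.Agent.Results.MP_78fc4b_an.DimensionDichotomy
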